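import Pool.Agent.P8H31.PW.Stm

/-! Project PWV of helper31, package SQR: the second moment of a trigonometric polynomial on a grid. -/

set_option autoImplicit false

open Finset

namespace Pool.Agent.P8H41.PWV

open Pool.Agent.P8H31.PW

theorem grid_sum (N : ℕ) (hN : 1 ≤ N) (a c : ℕ) (ha : a < N) (hc : c < N) :
    ∑ j ∈ range (2 * N), ze N j a * (starRingEnd ℂ) (ze N j c) = if a = c then 2 * (N : ℂ) else 0 := by
  have hN0 : (N : ℂ) ≠ 0 := by exact_mod_cast (by omega : N ≠ 0)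
  obtain ⟨ζ, hζ⟩ : ∃ ζ : ℂ, ζ = Complex.exp (2 * Real.pi * Complex.I / ((2 * N : ℕ) : ℂ)) := ⟨_, rfl⟩
  have hp : IsPrimitiveRoot ζ (2 * N) := by
    rw [hζ]; exact Complex.isPrimitiveRoot_exp (2 * N) (by omega)
  have hz : ∀ j k : ℕ, ze N j k = (ζ ^ k) ^ j := by
    intro j k
    rw [← pow_mul, hζ, ← Complex.exp_nat_mul]
    unfold ze
    congr 1
    push_cast
    field_simp
  have hn : ‖ζ‖ = 1 := hp.norm'_eq_one (by omega)
  have hζ0 : ζ ≠ 0 := by
    intro h; rw [h] at hn; simp at hn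
  have hconj : (starRingEnd ℂ) ζ = ζ⁻¹ := by
    rw [Complex.inv_def, Complex.normSq_eq_norm_sq, hn]; simp
  have hterm : ∀ j : ℕ, ze N j a * (starRingEnd ℂ) (ze N j c) = (ζ ^ a * (ζ ^ c)⁻¹) ^ j := by
    intro j
    rw [hz, hz, map_pow, map_pow, hconj, mul_pow, inv_pow]
  simp only [hterm]
  split_ifs with h
  · rw [h, mul_inv_cancel₀ (pow_ne_zero _ hζ0)]
    simp
  · have hw : ζ ^ a * (ζ ^ c)⁻¹ ≠ 1 := by
      intro h1
      apply h
      refine hp.pow_inj (by omega) (by omega) ?_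
      rwa [mul_inv_eq_one₀ (pow_ne_zero _ hζ0)] at h1
    have h2 : (ζ ^ a * (ζ ^ c)⁻¹) ^ (2 * N) = 1 := by
      rw [mul_pow, inv_pow, pow_right_comm ζ a, pow_right_comm ζ c, hp.pow_eq_one]
      simp
    rw [geom_sum_eq hw, h2]; simp

theorem sqr : S_SQR := by
  intro N hN p
  have hc : ((∑ j ∈ range (2 * N), ‖∑ k ∈ range N, ze N j k * p k‖ ^ 2 : ℝ) : ℂ) =
      ((2 * N * ∑ a ∈ range N, ‖p a‖ ^ 2 : ℝ) : ℂ) := by
    push_cast
    have h1 : ∀ j ∈ range (2 * N), ((‖∑ k ∈ range N, ze N j k * p k‖ : ℂ)) ^ 2 =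
        ∑ a ∈ range N, ∑ c ∈ range N, (p a * (starRingEnd ℂ) (p c)) *
          (ze N j a * (starRingEnd ℂ) (ze N j c)) := by
      intro j _
      rw [← Complex.mul_conj', map_sum, sum_mul_sum]
      refine sum_congr rfl fun a _ => sum_congr rfl fun c _ => ?_
      rw [map_mul]; ring
    rw [sum_congr rfl h1, sum_comm, mul_sum]
    refine sum_congr rfl fun a ha => ?_
    rw [sum_comm]
    have h2 : ∀ c ∈ range N, ∑ j ∈ range (2 * N), (p a * (starRingEnd ℂ) (p c)) *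
        (ze N j a * (starRingEnd ℂ) (ze N j c)) =
        if a = c then (p a * (starRingEnd ℂ) (p c)) * (2 * (N : ℂ)) else 0 := by
      intro c hc
      rw [← mul_sum, grid_sum N hN a c (mem_range.1 ha) (mem_range.1 hc)]
      split_ifs <;> simp
    rw [sum_congr rfl h2, sum_ite_eq, if_pos ha, Complex.mul_conj']
    ring
  exact_mod_cast hc

end Pool.Agent.P8H41.PWV
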